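import Pool.Agent.H53.NvI

/-! Property (V) holds as soon as `α(f) > l + 1`. -/

namespace Pool.Agent.Results.MP_78803a_an.Bound

open Metric Filter Set Topology Asymptotics Real MeasureTheory Pool.Agent.H53.Nv
open scoped ENNReal

/-- `α(f) = limsup_{r → 1⁻} T(r, f) / log (1 / (1 - r))`. -/
noncomputable def alphaD (f : ℂ → ℂ) : ℝ≥0∞ :=
  limsup (fun r => ENNReal.ofReal (charT f r / Real.log (1 / (1 - r)))) (𝓝[<] 1)

/-- The linear differential polynomial `∑_{ν ≤ l} a_ν f^{(ν)}`. -/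
noncomputable def Psi (l : ℕ) (a : ℕ → ℂ → ℂ) (f : ℂ → ℂ) (z : ℂ) : ℂ :=
  ∑ ν ∈ Finset.range (l + 1), a ν z * iteratedDeriv ν f z

theorem avgD {ι κ : Type*} (s : Finset ι) (t : Finset κ) {a : ι → ℂ → ℂ} {b : κ → ℂ → ℂ}
    (ha : ∀ i ∈ s, MeromorphicOn (a i) (ball 0 1)) (hb : ∀ j ∈ t, MeromorphicOn (b j) (ball 0 1))
    {x y : ℂ → ℂ} (hx : MeromorphicOn x (ball 0 1)) (hy : MeromorphicOn y (ball 0 1)) {C : ℝ}
    (hC : 0 ≤ C) (h : ∀ᶠ z in codiscreteWithin (ball (0:ℂ) 1),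
      ‖x z‖ ≤ Real.exp (C + ∑ i ∈ s, log⁺ ‖a i z‖ + ∑ j ∈ t, log⁺ ‖b j z‖) * ‖y z‖)
    {r : ℝ} (h1 : 1 / 2 ≤ r) (h2 : r < 1) :
    prox x r ≤ (∑ i ∈ s, prox (a i) r + ∑ j ∈ t, prox (b j) r + prox y r) + C := by
  have i1 : ∀ i ∈ s, CircleIntegrable (fun z => log⁺ ‖a i z‖) 0 r := fun i hi => ci (ha i hi) h1 h2
  have i2 : ∀ j ∈ t, CircleIntegrable (fun z => log⁺ ‖b j z‖) 0 r := fun j hj => ci (hb j hj) h1 h2
  have i1' : CircleIntegrable (fun z => ∑ i ∈ s, log⁺ ‖a i z‖) 0 r := by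
    have := CircleIntegrable.sum (s := s) i1
    convert this using 1
    ext z; simp
  have i2' : CircleIntegrable (fun z => ∑ j ∈ t, log⁺ ‖b j z‖) 0 r := by
    have := CircleIntegrable.sum (s := t) i2
    convert this using 1
    ext z; simp
  have i3 : CircleIntegrable (fun z => ∑ i ∈ s, log⁺ ‖a i z‖ + ∑ j ∈ t, log⁺ ‖b j z‖) 0 r :=
    i1'.add i2'
  have i4 : CircleIntegrable (fun z => ∑ i ∈ s, log⁺ ‖a i z‖ + ∑ j ∈ t, log⁺ ‖b j z‖
      + log⁺ ‖y z‖) 0 r := i3.add (ci hy h1 h2)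
  have hm := avg_mono_cod (f₁ := fun z => log⁺ ‖x z‖)
    (f₂ := fun z => ∑ i ∈ s, log⁺ ‖a i z‖ + ∑ j ∈ t, log⁺ ‖b j z‖ + log⁺ ‖y z‖ + C)
    (by linarith : r ≠ 0) (ci hx h1 h2) (i4.add (circleIntegrable_const _ _ _)) (by
      filter_upwards [codiscreteWithin_mono (sph_sub h1 h2) h] with z hz
      have p1 : 0 ≤ ∑ i ∈ s, log⁺ ‖a i z‖ := Finset.sum_nonneg fun _ _ => Real.posLog_nonneg
      have p2 : 0 ≤ ∑ j ∈ t, log⁺ ‖b j z‖ := Finset.sum_nonneg fun _ _ => Real.posLog_nonneg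
      have := posLog_le_add (norm_nonneg _) (norm_nonneg _) (by positivity) hz
      linarith)
  rw [circleAverage_fun_add i4 (circleIntegrable_const _ _ _), circleAverage_const,
    circleAverage_fun_add i3 (ci hy h1 h2), circleAverage_fun_add i1' i2',
    circleAverage_fun_sum i1, circleAverage_fun_sum i2] at hm
  exact hm

theorem merom_inv {g : ℂ → ℂ} (hg : MeromorphicOn g (ball 0 1)) :
    MeromorphicOn (fun z => (g z)⁻¹) (ball 0 1) := fun z hz => (hg z hz).inv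

theorem prox_le_inv {g : ℂ → ℂ} (hg : MeromorphicOn g (ball 0 1))
    (hfin : {u | u ∈ ball (0:ℂ) 1 ∧ 0 < meromorphicOrderAt g u}.Finite) :
    ∃ C : ℝ, ∀ r, 1 / 2 ≤ r → r < 1 → prox g r ≤ prox (fun z => (g z)⁻¹) r + C := by
  obtain ⟨c, -, hc, -⟩ := fmt (merom_inv hg)
  obtain ⟨C, hC⟩ := cnt_fin (merom_inv hg) hfin.toFinset fun u hu hF => by
    have h1 : meromorphicOrderAt g u ≤ 0 := by
      by_contra h
      exact hF (hfin.mem_toFinset.2 ⟨hu, not_le.1 h⟩)
    have h2 : meromorphicOrderAt (fun z => (g z)⁻¹) u = -meromorphicOrderAt g u :=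
      meromorphicOrderAt_inv
    rw [h2]
    obtain ⟨n, hn⟩ := WithTop.ne_top_iff_exists.1 (ne_top_of_le_ne_top (by simp) h1)
    rw [← hn] at h1 ⊢
    have h3 : n ≤ 0 := by exact_mod_cast h1
    have h4 : (0 : ℤ) ≤ -n := by omega
    exact_mod_cast h4
  refine ⟨C + c, fun r h1 h2 => ?_⟩
  have h3 := (hc r h1 h2).1
  have h4 := hC r h1 h2
  simp only [inv_inv] at h3
  unfold charT at h3
  have e : (fun z => g z) = g := rfl
  rw [e] at h3
  linarith

theorem prox_nonneg (g : ℂ → ℂ) (r : ℝ) : 0 ≤ prox g r :=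
  circleAverage_nonneg_of_nonneg fun _ _ => Real.posLog_nonneg

theorem result (l : ℕ) (f : ℂ → ℂ) (hf : MeromorphicOn f (ball 0 1))
    (hfin : {u | u ∈ ball (0:ℂ) 1 ∧ meromorphicOrderAt f u ≠ 0}.Finite)
    (hα : alphaD f ≠ ⊤) (hl : (l : ℝ≥0∞) + 1 < alphaD f) (a : ℕ → ℂ → ℂ)
    (ha : ∀ ν ≤ l, MeromorphicOn (a ν) (ball 0 1))
    (hs : ∀ ν ≤ l, charT (a ν) =o[𝓝[<] 1] charT f)
    (hnc : ∀ c : ℂ, ¬ ∀ᶠ z in codiscreteWithin (ball (0 : ℂ) 1), Psi l a f z = c)
    (w : ℂ) (hw : w ≠ 0) :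
    {u | u ∈ ball (0:ℂ) 1 ∧ 0 < meromorphicOrderAt (fun z => Psi l a f z - w) u}.Infinite := by
  classical
  intro hW
  set K := (alphaD f).toReal with hKd
  have hK0 : 0 ≤ K := ENNReal.toReal_nonneg
  have hK : Bd (charT f) K := fun ε hε => by
    have h1 : alphaD f < ENNReal.ofReal (K + ε) := by
      rw [← ENNReal.ofReal_toReal hα, ← hKd]
      exact (ENNReal.ofReal_lt_ofReal_iff (by linarith)).2 (by linarith)
    filter_upwards [eventually_lt_of_limsup_lt h1, tendsto_L.eventually_gt_atTop 0] with r hr hL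
    have := (ENNReal.ofReal_lt_ofReal_iff (by linarith)).1 hr
    rw [div_lt_iff₀ hL] at this
    exact this.le
  obtain ⟨c₀, hc₀0, hc₀, -⟩ := fmt hf
  have ha' : ∀ ν ∈ Finset.range (l + 1), MeromorphicOn (a ν) (ball 0 1) := fun ν hν =>
    ha ν (Nat.lt_succ_iff.1 (Finset.mem_range.1 hν))
  have hsm : ∀ ν ∈ Finset.range (l + 1), Bd (charT (a ν)) 0 := fun ν hν ε hε => by
    have h1 := (hs ν (Nat.lt_succ_iff.1 (Finset.mem_range.1 hν))).bound
      (c := ε / (K + 2)) (by positivity)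
    filter_upwards [h1, hK 1 one_pos, Bd.const c₀ 1 one_pos, ev_half,
      tendsto_L.eventually_ge_atTop 0] with r b1 b2 b3 b4 b5
    have b6 := (hc₀ r b4.1 b4.2).2.2.1
    have b7 : ‖charT f r‖ ≤ (K + 2) * Real.log (1 / (1 - r)) := by
      rw [Real.norm_eq_abs, abs_le]
      have := mul_nonneg hK0 b5
      constructor <;> nlinarith
    have b8 := mul_le_mul_of_nonneg_left b7 (show 0 ≤ ε / (K + 2) by positivity)
    have b9 : ε / (K + 2) * ((K + 2) * Real.log (1 / (1 - r))) = ε * Real.log (1 / (1 - r)) := by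
      field_simp
    have := le_abs_self (charT (a ν) r)
    rw [Real.norm_eq_abs] at b1
    linarith
  have hsp : Bd (fun r => ∑ ν ∈ Finset.range (l + 1), prox (a ν) r) 0 := by
    have := Bd.sum (Finset.range (l + 1)) (X := fun ν => prox (a ν)) (c := 0) fun ν hν => by
      obtain ⟨c, -, hc, -⟩ := fmt (ha' ν hν)
      exact (hsm ν hν).mono c fun r h1 h2 => (hc r h1 h2).2.1
    simpa using this
  have hsn : Bd (fun r => ∑ ν ∈ Finset.range (l + 1), cnt (poleMult (a ν) r) r) 0 := by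
    have := Bd.sum (Finset.range (l + 1)) (X := fun ν r => cnt (poleMult (a ν) r) r) (c := 0)
      fun ν hν => (hsm ν hν).mono 0 fun r _ _ => by
        have := prox_nonneg (a ν) r
        unfold charT; linarith
    simpa using this
  set F := hfin.toFinset with hFd
  have hF : ∀ u ∈ ball (0:ℂ) 1, u ∉ F → 0 ≤ meromorphicOrderAt f u := fun u hu h => by
    by_contra h1
    exact h (hfin.mem_toFinset.2 ⟨hu, (not_le.1 h1).ne⟩)
  have hI := iter_facts hf F hF hK
  have hld : Bd (fun r => ∑ j ∈ Finset.range l, prox (logDeriv (iteratedDeriv j f)) r) l := by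
    have := Bd.sum (Finset.range l) (X := fun j => prox (logDeriv (iteratedDeriv j f))) (c := 1)
      fun j _ => by
        obtain ⟨h1, -, K', h3⟩ := hI j
        exact ld_bd h1 h3
    simpa using this
  have hΨ : MeromorphicOn (Psi l a f) (ball 0 1) := fun u hu =>
    MeromorphicAt.fun_sum (s := Finset.range (l + 1))
      (G := fun ν z => a ν z * iteratedDeriv ν f z)
      fun ν hν => (ha' ν hν u hu).mul ((hI ν).1 u hu)
  obtain ⟨C₁, hC₁⟩ := cnt_dom (Finset.range (l + 1)) hΨ ha' F fun u hu h => by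
    refine pn_le (Finset.sum_nonneg fun i _ => pn_nonneg _ _)
      (order_sum_ge (Finset.range (l + 1)) (fun ν z => a ν z * iteratedDeriv ν f z)
        (fun ν hν => (ha' ν hν u hu).mul ((hI ν).1 u hu)) fun ν hν => ?_).2
    have e : meromorphicOrderAt (fun z => a ν z * iteratedDeriv ν f z) u
        = meromorphicOrderAt (a ν) u + meromorphicOrderAt (iteratedDeriv ν f) u :=
      meromorphicOrderAt_mul (ha' ν hν u hu) ((hI ν).1 u hu)
    rw [e]
    have h1 : pn (a ν) u ≤ ∑ i ∈ Finset.range (l + 1), pn (a i) u :=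
      Finset.single_le_sum (f := fun i => pn (a i) u) (fun i _ => pn_nonneg _ _) hν
    refine le_trans ?_ (le_add_of_nonneg_right ((hI ν).2.1 u hu h))
    exact le_trans (WithTop.coe_le_coe.2 (by omega)) (neg_pn_le (a ν) u)
  have hN : Bd (fun r => cnt (poleMult (Psi l a f) r) r) 0 := hsn.mono C₁ hC₁
  have hpt : ∀ᶠ z in codiscreteWithin (ball (0:ℂ) 1), ‖Psi l a f z‖
      ≤ Real.exp (Real.log (l + 1) + ∑ ν ∈ Finset.range (l + 1), log⁺ ‖a ν z‖
        + ∑ j ∈ Finset.range l, log⁺ ‖logDeriv (iteratedDeriv j f) z‖) * ‖f z‖ := by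
    filter_upwards [(eventually_all_finset (Finset.range l)).2
      fun j _ => deriv_eq_ld (hI j).1] with z hz
    exact psi_pointwise l z fun j hj => hz j (Finset.mem_range.2 hj)
  have hlog : 0 ≤ Real.log ((l : ℝ) + 1) := Real.log_nonneg (by linarith [Nat.cast_nonneg (α := ℝ) l])
  have hldm : ∀ j ∈ Finset.range l, MeromorphicOn (logDeriv (iteratedDeriv j f)) (ball 0 1) :=
    fun j _ => merom_ld (hI j).1
  have hTΨ : Bd (charT (Psi l a f)) (0 + l + K + 0) := by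
    refine (((hsp.add hld).add hK).add hN).mono (Real.log (l + 1) + c₀) fun r h1 h2 => ?_
    have := avgD _ _ ha' hldm hΨ hf hlog hpt h1 h2
    have := (hc₀ r h1 h2).2.1
    unfold charT at *
    linarith
  have hcore : Bd (fun r => prox (fun z => (Psi l a f z - 0)⁻¹) r
      + prox (fun z => (Psi l a f z - w)⁻¹) r + prox (deriv (Psi l a f)) r
      - prox (fun z => (deriv (Psi l a f) z)⁻¹) r - prox (Psi l a f) r) 1 := by
    refine Bd.of_param fun α σ hα0 hα1 hσ => ?_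
    obtain ⟨s₀, hs₀, hT⟩ := hTΨ.growth hσ
    obtain ⟨C, hC⟩ := core hα0 hα1 hσ.le hΨ (order_ne_top hΨ hnc) (order_deriv_ne_top hΨ hnc) hT
      {0, w} (by simp)
    refine ⟨s₀, hs₀, C, fun r h1 h2 h3 => ?_⟩
    have := hC r 1 h1 h2 h3 zero_le_one le_rfl
    rw [Finset.sum_pair hw.symm] at this
    linarith
  obtain ⟨c₁, -, hc₁, -⟩ := fmt hΨ.deriv
  obtain ⟨C₂, hC₂⟩ := barN_le hΨ
  obtain ⟨C₃, hC₃⟩ := prox_le_inv (merom_sub hΨ w) hW
  have hinvΨ : Bd (prox fun z => (Psi l a f z - 0)⁻¹) (1 + 0 + 0) := by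
    refine ((hcore.add hN).add hN).mono (c₁ + C₂ + C₃ + (log⁺ ‖-w‖ + Real.log 2))
      fun r h1 h2 => ?_
    have q1 := (hc₁ r h1 h2).1
    have q2 := cnt_deriv hΨ h2
    have q3 := hC₂ r h1 h2
    have q4 := hC₃ r h1 h2
    have q5 := charT_sub_le (merom_sub hΨ w) (-w) (by linarith : 0 < r) h2
    have e : (fun z => Psi l a f z - w - -w) = Psi l a f := by funext z; ring
    rw [e] at q5
    unfold charT at q1 q5
    rw [poleMult_sub hΨ w h2] at q5
    linarith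
  have hinvf : Bd (prox fun z => (f z)⁻¹) (0 + l + (1 + 0 + 0)) := by
    refine ((hsp.add hld).add hinvΨ).mono (Real.log (l + 1)) fun r h1 h2 => ?_
    refine avgD _ _ ha' hldm (merom_inv hf) (merom_inv (merom_sub hΨ 0)) hlog ?_ h1 h2
    filter_upwards [hpt, (merom_sub hΨ 0).eventually_codiscreteWithin_apply_ne_zero
      (order_ne_top hΨ hnc 0)] with z z1 z2
    rw [sub_zero] at z2 ⊢
    have p1 : 0 < ‖Psi l a f z‖ := norm_pos_iff.2 z2
    have p2 : 0 < ‖f z‖ := by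
      by_contra h
      have : ‖f z‖ = 0 := le_antisymm (not_lt.1 h) (norm_nonneg _)
      rw [this, mul_zero] at z1
      linarith
    rw [norm_inv, norm_inv, ← div_eq_mul_inv, le_div_iff₀ p1, inv_mul_le_iff₀ p2]
    linarith
  obtain ⟨C₄, hC₄⟩ := prox_le_inv hf (hfin.subset fun u hu => ⟨hu.1, hu.2.ne'⟩)
  obtain ⟨C₅, hC₅⟩ := cnt_fin hf F hF
  have hT : Bd (charT f) (0 + l + (1 + 0 + 0)) := hinvf.mono (C₄ + C₅) fun r h1 h2 => by
    have := hC₄ r h1 h2
    have := hC₅ r h1 h2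
    unfold charT
    linarith
  have hlK : (l : ℝ) + 1 < K := by
    have h1 : ((l : ℝ≥0∞) + 1).toReal < K :=
      (ENNReal.toReal_lt_toReal (by simp) hα).2 hl
    rwa [ENNReal.toReal_add (by simp) (by simp), ENNReal.toReal_natCast, ENNReal.toReal_one] at h1
  have hle : alphaD f ≤ ENNReal.ofReal (((l : ℝ) + 1 + K) / 2) := by
    apply limsup_le_of_le
    · isBoundedDefault
    filter_upwards [hT ((K - (l + 1)) / 2) (by linarith), tendsto_L.eventually_gt_atTop 0]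
      with r h1 h2
    apply ENNReal.ofReal_le_ofReal
    rw [div_le_iff₀ h2]
    refine h1.trans (le_of_eq ?_)
    ring
  rw [← ENNReal.ofReal_toReal hα, ← hKd, ENNReal.ofReal_le_ofReal_iff (by linarith)] at hle
  linarith

end Pool.Agent.Results.MP_78803a_an.Bound
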